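import Mathlib
import Pool.Agent.Helper35.TDataB

set_option autoImplicit false

namespace Pool.Agent.Results.MP_6428c8_nt.PrescribedPeak

open Polynomial Filter

/-- The naive height of an integer polynomial: the maximum absolute value of its coefficients. -/
noncomputable def height (P : ℤ[X]) : ℕ := P.support.sup (fun i => (P.coeff i).natAbs)

/-- `P` is the minimal polynomial over `ℤ` of the real number `α`: irreducible, primitive,
with positive leading coefficient, vanishing at `α`. -/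
def IsMinPolyZ (P : ℤ[X]) (α : ℝ) : Prop :=
  Irreducible P ∧ P.IsPrimitive ∧ 0 < P.leadingCoeff ∧ aeval α P = 0

/-- Mahler's exponent `w_n(ξ)`, in the extended reals. -/
noncomputable def wMahler (ξ : ℝ) (n : ℕ) : EReal :=
  sSup {W : EReal | ∃ w : ℝ, W = (w : EReal) ∧
    {P : ℤ[X] | P.natDegree ≤ n ∧ 0 < |aeval ξ P| ∧
      |aeval ξ P| ≤ (height P : ℝ) ^ (-w)}.Infinite}

/-- Koksma's exponent `w_n^*(ξ)`, in the extended reals. -/
noncomputable def wKoksma (ξ : ℝ) (n : ℕ) : EReal :=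
  sSup {W : EReal | ∃ w : ℝ, W = (w : EReal) ∧
    {α : ℝ | ∃ P : ℤ[X], IsMinPolyZ P α ∧ P.natDegree ≤ n ∧ 0 < |ξ - α| ∧
      |ξ - α| ≤ (height P : ℝ) ^ (-w - 1)}.Infinite}

/-- A real S-number: transcendental with `limsup w_n(ξ) / n < ∞`. -/
def IsSNumber (ξ : ℝ) : Prop :=
  Transcendental ℚ ξ ∧ limsup (fun n : ℕ => wMahler ξ n / (n : EReal)) atTop < ⊤

/-- The normalized exponents `(w_n + 1) / (n + 1)`. -/
noncomputable def norm1 (w : ℕ → EReal) (n : ℕ) : EReal := (w n + 1) / ((n : EReal) + 1)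

/-- The normalized exponents have lim sup at most `41`, their value at `n = d` is at least `R` and
strictly larger than all the other values, and their lim sup is strictly smaller than their
supremum. -/
def PeakAt (w : ℕ → EReal) (d : ℕ) (R : ℝ) : Prop :=
  limsup (fun n : ℕ => norm1 w n) atTop ≤ ((41 : ℝ) : EReal) ∧
  (R : EReal) ≤ norm1 w d ∧
  (∀ n : ℕ, 1 ≤ n → n ≠ d → norm1 w n < norm1 w d) ∧
  limsup (fun n : ℕ => norm1 w n) atTop < ⨆ (n : ℕ) (_ : 1 ≤ n), norm1 w n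

theorem sSup_eq (S : Set ℝ) (a : ℝ) (h : IsLUB S a) :
    sSup {W : EReal | ∃ w : ℝ, W = (w : EReal) ∧ w ∈ S} = (a : EReal) := by
  apply IsLUB.sSup_eq
  constructor
  · rintro W ⟨w, rfl, hw⟩
    exact_mod_cast h.1 hw
  · intro b hb
    induction b with
    | bot =>
      exfalso
      by_cases hne : S.Nonempty
      · obtain ⟨w, hw⟩ := hne
        have := hb ⟨w, rfl, hw⟩
        simp at this
      · rw [Set.not_nonempty_iff_eq_empty] at hne
        subst hne
        have h2 : a ≤ a - 1 := h.2 (by simp)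
        linarith
    | coe b =>
      have : a ≤ b := h.2 (fun w hw => by
        have := hb ⟨w, rfl, hw⟩
        exact_mod_cast this)
      exact_mod_cast this
    | top => exact le_top

theorem ratio_coe (a : ℝ) (n : ℕ) :
    ((a : EReal) + 1) / ((n : EReal) + 1) = (((a + 1) / ((n : ℝ) + 1) : ℝ) : EReal) := by
  rw [EReal.coe_div]
  push_cast
  rfl

theorem peak_of (w : ℕ → EReal) (f : ℕ → ℝ) (hw : ∀ n, 1 ≤ n → w n = (f n : EReal)) (d W : ℕ)
    (hd : 1 ≤ d) (R : ℝ) (hW1 : 42 * (d + 1) ≤ W) (hWR : R * ((d : ℝ) + 1) ≤ W)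
    (hlow : (W : ℝ) - 1 ≤ f d)
    (hup : ∀ n : ℕ, 1 ≤ n → n < d → f n ≤ ((40 * (n + 1) : ℕ) : ℝ))
    (hup2 : ∀ n : ℕ, d ≤ n → f n ≤ ((max (40 * (n + 1)) W : ℕ) : ℝ)) : PeakAt w d R := by
  have hval : ∀ n, 1 ≤ n → norm1 w n = (((f n + 1) / ((n : ℝ) + 1) : ℝ) : EReal) := by
    intro n hn
    rw [norm1, hw n hn, ratio_coe]
  have hdr : (0 : ℝ) < (d : ℝ) + 1 := by positivity
  have hWr : (42 : ℝ) * ((d : ℝ) + 1) ≤ W := by exact_mod_cast hW1
  have hT1 : (W : ℝ) / ((d : ℝ) + 1) ≤ (f d + 1) / ((d : ℝ) + 1) :=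
    div_le_div_of_nonneg_right (by linarith) hdr.le
  have hT42 : (42 : ℝ) ≤ (W : ℝ) / ((d : ℝ) + 1) := by rw [le_div_iff₀ hdr]; exact hWr
  have hsmall : ∀ n : ℕ, 1 ≤ n → f n ≤ ((40 * (n + 1) : ℕ) : ℝ) →
      (f n + 1) / ((n : ℝ) + 1) ≤ 41 := by
    intro n hn h
    have hnr : (1 : ℝ) ≤ n := by exact_mod_cast hn
    push_cast at h
    rw [div_le_iff₀ (by linarith)]
    linarith
  have hlim : limsup (fun n : ℕ => norm1 w n) atTop ≤ ((41 : ℝ) : EReal) := by
    apply limsup_le_of_le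
    · isBoundedDefault
    · filter_upwards [eventually_ge_atTop (max d W)] with n hn
      have h1 : d ≤ n := (le_max_left _ _).trans hn
      have h2 : W ≤ n := (le_max_right _ _).trans hn
      have h3 := hup2 n h1
      rw [max_eq_left (by omega)] at h3
      rw [hval n (by omega)]
      exact_mod_cast hsmall n (by omega) h3
  have h42 : ((42 : ℝ) : EReal) ≤ norm1 w d := by
    rw [hval d hd]
    exact_mod_cast hT42.trans hT1
  refine ⟨hlim, ?_, ?_, ?_⟩
  · rw [hval d hd]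
    have h1 : R ≤ (W : ℝ) / ((d : ℝ) + 1) := by rw [le_div_iff₀ hdr]; exact hWR
    exact_mod_cast h1.trans hT1
  · intro n hn hne
    rw [hval n hn, hval d hd, EReal.coe_lt_coe_iff]
    have hnr : (1 : ℝ) ≤ n := by exact_mod_cast hn
    refine lt_of_lt_of_le ?_ hT1
    rcases lt_or_gt_of_ne hne with h | h
    · have := hsmall n hn (hup n hn h)
      linarith
    · have h1 := hup2 n h.le
      rcases le_total W (40 * (n + 1)) with h2 | h2
      · rw [max_eq_left h2] at h1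
        have := hsmall n hn h1
        linarith
      · rw [max_eq_right h2] at h1
        have h3 : (d : ℝ) + 1 ≤ n := by exact_mod_cast h
        rw [div_lt_div_iff₀ (by linarith) hdr]
        have h4 : (f n + 1) * ((d : ℝ) + 1) ≤ ((W : ℝ) + 1) * ((d : ℝ) + 1) :=
          mul_le_mul_of_nonneg_right (by linarith) hdr.le
        have h5 : (W : ℝ) * ((d : ℝ) + 1 + 1) ≤ (W : ℝ) * ((n : ℝ) + 1) :=
          mul_le_mul_of_nonneg_left (by linarith) (Nat.cast_nonneg _)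
        nlinarith
  · refine lt_of_le_of_lt hlim (lt_of_lt_of_le ?_ (h42.trans (le_iSup₂_of_le d hd le_rfl)))
    rw [EReal.coe_lt_coe_iff]; norm_num

/-- **Peaks at prescribed degrees.**  For every degree `d ≥ 1` and every real `R` there is a real
S-number `ξ` such that, for Mahler's exponents `w_n` as well as for Koksma's exponents `w_n^*`: the
lim sup of `(w_n + 1) / (n + 1)` is at most `41`, the value at `n = d` is at least `R`, it is
strictly larger than all the other values, and the lim sup is strictly smaller than the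
supremum. -/
theorem result : ∀ d : ℕ, 1 ≤ d → ∀ R : ℝ, ∃ ξ : ℝ, IsSNumber ξ ∧
    PeakAt (wMahler ξ) d R ∧ PeakAt (wKoksma ξ) d R := by
  intro d hd R
  set W : ℕ := 42 * (d + 1) + ⌈R * ((d : ℝ) + 1)⌉₊ with hW
  have hW1 : 42 * (d + 1) ≤ W := by omega
  have hWR : R * ((d : ℝ) + 1) ≤ W := by
    refine (Nat.le_ceil _).trans ?_
    exact_mod_cast (by omega : ⌈R * ((d : ℝ) + 1)⌉₊ ≤ W)
  set V : ℕ → ℕ := fun j => if j + 1 = d then W else 22 with hVdef
  have hV : ∀ j, 22 ≤ V j := by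
    intro j
    simp only [hVdef]
    split_ifs <;> omega
  have hVle : ∀ j, V j ≤ W := by
    intro j
    simp only [hVdef]
    split_ifs <;> omega
  have hVd : V (d - 1) = W := by
    simp only [hVdef]
    rw [if_pos (by omega)]
  have hVlt : ∀ j, j + 1 < d → V j = 22 := by
    intro j hj
    simp only [hVdef]
    rw [if_neg (by omega)]
  set e : ℕ → ℕ := fun k => (Nat.unpair k).1 with he
  have heK : ∀ j K : ℕ, ∃ k, K ≤ k ∧ e k = j := by
    intro j K
    refine ⟨Nat.pair j K, Nat.right_le_pair j K, ?_⟩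
    simp [he]
  set Mq : ℕ → ℕ := fun k => k + ⌈1 / Pool.Agent.Helper35.cL (e k)⌉₊ +
    ⌈2 / Pool.Agent.Helper35.ηL (e k)⌉₊ with hMq
  have hM : Pool.Agent.Helper35.Demand e Mq := fun k => le_rfl
  obtain ⟨X⟩ := Pool.Agent.Helper35.sdata_exists e V Mq hV
  have hbd : ∀ n E : ℕ, 40 * (n + 1) ≤ E → (∀ j, j < n → V j ≤ E) →
      ∃ c : ℝ, 0 < c ∧ ∀ P : ℤ[X], P ≠ 0 → P.natDegree ≤ n →
        c ≤ |aeval X.ξ P| * (Pool.Agent.Helper35.ht P : ℝ) ^ E :=
    fun n E h1 h2 => X.bound_all hM hV n E h1 h2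
  -- upper bounds for the elements
  have hWS : ∀ n E : ℕ, 40 * (n + 1) ≤ E → (∀ j, j < n → V j ≤ E) →
      ∀ v ∈ Pool.Agent.Helper35.WSet X.ξ n, v ≤ (E : ℝ) := by
    intro n E h1 h2 v hv
    obtain ⟨c, hc, hcc⟩ := hbd n E h1 h2
    exact Pool.Agent.Helper35.WSet_le X.ξ n E c hc hcc v hv
  have hSS : ∀ n E : ℕ, 40 * (n + 1) ≤ E → (∀ j, j < n → V j ≤ E) →
      ∀ v ∈ Pool.Agent.Helper35.SSet X.ξ n, v ≤ (E : ℝ) := by
    intro n E h1 h2 v hv
    obtain ⟨c, hc, hcc⟩ := hbd n E h1 h2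
    exact Pool.Agent.Helper35.SSet_le X.ξ X.ξ0 X.ξ1 n E c hc hcc v hv
  have hWm : ∀ n : ℕ, 1 ≤ n → ∀ v : ℝ, v < (V (n - 1) : ℝ) - 1 →
      v ∈ Pool.Agent.Helper35.WSet X.ξ n := by
    intro n hn v hv
    have := X.mem_WSet hM hV (n - 1) (heK (n - 1)) v hv
    rwa [Nat.sub_add_cancel hn] at this
  have hSm : ∀ n : ℕ, 1 ≤ n → ∀ v : ℝ, v < (V (n - 1) : ℝ) - 1 →
      v ∈ Pool.Agent.Helper35.SSet X.ξ n := by
    intro n hn v hv
    have := X.mem_SSet hM hV (n - 1) (heK (n - 1)) v hv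
    rwa [Nat.sub_add_cancel hn] at this
  -- general facts about a family of sets with these bounds
  have gen : ∀ T : ℕ → Set ℝ,
      (∀ n E : ℕ, 40 * (n + 1) ≤ E → (∀ j, j < n → V j ≤ E) → ∀ v ∈ T n, v ≤ (E : ℝ)) →
      (∀ n : ℕ, 1 ≤ n → ∀ v : ℝ, v < (V (n - 1) : ℝ) - 1 → v ∈ T n) →
      (∀ n : ℕ, 1 ≤ n → IsLUB (T n) (sSup (T n))) ∧
      (W : ℝ) - 1 ≤ sSup (T d) ∧
      (∀ n : ℕ, 1 ≤ n → n < d → sSup (T n) ≤ ((40 * (n + 1) : ℕ) : ℝ)) ∧
      (∀ n : ℕ, 1 ≤ n → sSup (T n) ≤ ((max (40 * (n + 1)) W : ℕ) : ℝ)) := by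
    intro T hT1 hT2
    have hlub : ∀ n : ℕ, 1 ≤ n → IsLUB (T n) (sSup (T n)) := by
      intro n hn
      apply isLUB_csSup
      · exact ⟨_, hT2 n hn ((V (n - 1) : ℝ) - 2) (by linarith)⟩
      · exact ⟨_, fun v hv => hT1 n (max (40 * (n + 1)) W) (le_max_left _ _)
          (fun j _ => (hVle j).trans (le_max_right _ _)) v hv⟩
    refine ⟨hlub, ?_, ?_, ?_⟩
    · apply le_of_forall_lt
      intro v hv
      have h1 : (v + ((W : ℝ) - 1)) / 2 ∈ T d := hT2 d hd _ (by rw [hVd]; linarith)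
      have h2 := (hlub d hd).1 h1
      linarith
    · intro n hn hnd
      exact (hlub n hn).2 (fun v hv => hT1 n (40 * (n + 1)) le_rfl
        (fun j hj => by rw [hVlt j (by omega)]; omega) v hv)
    · intro n hn
      exact (hlub n hn).2 (fun v hv => hT1 n (max (40 * (n + 1)) W) (le_max_left _ _)
          (fun j _ => (hVle j).trans (le_max_right _ _)) v hv)
  obtain ⟨wlub, w1, w2, w3⟩ := gen (Pool.Agent.Helper35.WSet X.ξ) hWS hWm
  obtain ⟨slub, s1, s2, s3⟩ := gen (Pool.Agent.Helper35.SSet X.ξ) hSS hSm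
  have hMah : ∀ m, 1 ≤ m → wMahler X.ξ m =
      ((sSup (Pool.Agent.Helper35.WSet X.ξ m) : ℝ) : EReal) := by
    intro m hm
    rw [← sSup_eq _ _ (wlub m hm)]
    unfold wMahler
    congr 1
    ext Z
    simp only [Set.mem_ofPred_eq]
    refine exists_congr (fun w => and_congr_right (fun _ => ?_))
    unfold Pool.Agent.Helper35.WSet
    simp only [Set.mem_ofPred_eq]
    have : {P : ℤ[X] | P.natDegree ≤ m ∧ 0 < |aeval X.ξ P| ∧
        |aeval X.ξ P| ≤ (height P : ℝ) ^ (-w)} = {P : ℤ[X] | P ≠ 0 ∧ P.natDegree ≤ m ∧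
        0 < |aeval X.ξ P| ∧ |aeval X.ξ P| ≤ (Pool.Agent.Helper35.ht P : ℝ) ^ (-w)} := by
      ext P
      simp only [Set.mem_ofPred_eq]
      constructor
      · rintro ⟨h1, h2, h3⟩
        refine ⟨?_, h1, h2, h3⟩
        rintro rfl
        simp at h2
      · rintro ⟨_, h1, h2, h3⟩
        exact ⟨h1, h2, h3⟩
    rw [this]
  have hKok : ∀ m, 1 ≤ m → wKoksma X.ξ m =
      ((sSup (Pool.Agent.Helper35.SSet X.ξ m) : ℝ) : EReal) := by
    intro m hm
    rw [← sSup_eq _ _ (slub m hm)]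
    rfl
  refine ⟨X.ξ, ⟨?_, ?_⟩, ?_, ?_⟩
  · intro hc
    rw [← IsFractionRing.isAlgebraic_iff ℤ ℚ ℝ] at hc
    obtain ⟨P, hP, h0⟩ := hc
    obtain ⟨c, hc, hcc⟩ := hbd P.natDegree (max (40 * (P.natDegree + 1)) W) (le_max_left _ _)
      (fun j _ => (hVle j).trans (le_max_right _ _))
    have := hcc P hP le_rfl
    rw [h0, abs_zero, zero_mul] at this
    linarith
  · refine lt_of_le_of_lt (b := ((81 : ℝ) : EReal)) ?_ (EReal.coe_lt_top _)
    apply limsup_le_of_le
    · isBoundedDefault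
    · filter_upwards [eventually_ge_atTop (max 1 W)] with m hm
      have hm1 : 1 ≤ m := (le_max_left _ _).trans hm
      have hmW : W ≤ m := (le_max_right _ _).trans hm
      rw [hMah m hm1]
      have e1 : ((sSup (Pool.Agent.Helper35.WSet X.ξ m) : ℝ) : EReal) / (m : EReal) =
          ((sSup (Pool.Agent.Helper35.WSet X.ξ m) / (m : ℝ) : ℝ) : EReal) := by
        rw [EReal.coe_div]; rfl
      rw [e1]
      have h1 := w3 m hm1
      rw [max_eq_left (by omega)] at h1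
      push_cast at h1
      have hmr : (1 : ℝ) ≤ m := by exact_mod_cast hm1
      have h3 : sSup (Pool.Agent.Helper35.WSet X.ξ m) / (m : ℝ) ≤ 81 := by
        rw [div_le_iff₀ (by linarith)]
        linarith
      exact_mod_cast h3
  · exact peak_of _ _ hMah d W hd R hW1 hWR w1 w2 (fun n hn => w3 n (hd.trans hn))
  · exact peak_of _ _ hKok d W hd R hW1 hWR s1 s2 (fun n hn => s3 n (hd.trans hn))

end Pool.Agent.Results.MP_6428c8_nt.PrescribedPeak
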